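import Pool.Agent.W813.NC.Stm

/-!
# VDM: the part of degree 0 is determined by the one-parameter group
-/

set_option autoImplicit false
set_option linter.unusedSectionVars false

open CategoryTheory Limits MonoidalCategory

namespace Pool.Agent.W554.NC

open Pool.Agent.W813.NC

universe v u v' u'

theorem lin (F : Type) [Field F] [CharZero F] (M : Type v') [AddCommGroup M] [Module F M]
    (H : ℤ → Submodule F M) (hI : DirectSum.IsInternal H) (f : M) :
    ∃ f₀ ∈ H 0, ∀ (V : Type v') [AddCommGroup V] [Module F V] (φ : M →ₗ[F] V),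
      (∀ (t : F) (ψ : M →ₗ[F] M), t ≠ 0 →
        (∀ (i : ℤ) (g : M), g ∈ H i → ψ g = t ^ i • g) → φ (ψ f) = φ f) →
      φ f = φ f₀ := by
  classical
  letI := hI.chooseDecomposition
  obtain ⟨f', hf'⟩ : ∃ f', f' = DirectSum.decompose H f := ⟨_, rfl⟩
  refine ⟨(f' 0 : M), (f' 0).2, ?_⟩
  intro V _ _ φ hφ
  have hsum : ∑ i ∈ f'.support, (f' i : M) = f := by
    rw [hf']
    exact DirectSum.sum_support_decompose H f
  have hev : ∀ t : F, t ≠ 0 → ∑ i ∈ f'.support, t ^ i • φ (f' i : M) = φ f := by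
    intro t ht
    obtain ⟨ψ, hψ⟩ : ∃ ψ : M →ₗ[F] M, ∀ (i : ℤ) (g : M), g ∈ H i → ψ g = t ^ i • g := by
      refine ⟨(DirectSum.toModule F ℤ M (fun i => t ^ i • (H i).subtype)) ∘ₗ
        (DirectSum.decomposeLinearEquiv H).toLinearMap, ?_⟩
      intro i g hg
      have h1 : (DirectSum.decomposeLinearEquiv H) g = DirectSum.lof F ℤ (fun i => H i) i ⟨g, hg⟩ :=
        DirectSum.decompose_of_mem H hg
      rw [LinearMap.comp_apply, LinearEquiv.coe_coe, h1, DirectSum.toModule_lof]
      rfl
    rw [← hφ t ψ ht hψ]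
    conv_rhs => rw [← hsum]
    rw [map_sum, map_sum]
    refine Finset.sum_congr rfl fun i _ => ?_
    rw [hψ i _ (f' i).2, map_smul]
  rw [← sub_eq_zero, ← Module.forall_dual_apply_eq_zero_iff F]
  intro l
  rw [map_sub, sub_eq_zero]
  obtain ⟨N, hN⟩ : ∃ N : ℕ, ∀ i ∈ f'.support, 0 ≤ i + N := by
    refine ⟨∑ i ∈ f'.support, i.natAbs, fun i hi => ?_⟩
    have h1 : i.natAbs ≤ ∑ i ∈ f'.support, i.natAbs :=
      Finset.single_le_sum (f := fun i : ℤ => i.natAbs) (fun _ _ => Nat.zero_le _) hi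
    omega
  obtain ⟨Q, hQ⟩ : ∃ Q : Polynomial F, Q = ∑ i ∈ f'.support,
      Polynomial.C (l (φ (f' i : M))) * Polynomial.X ^ (i + N).toNat -
      Polynomial.C (l (φ f)) * Polynomial.X ^ N := ⟨_, rfl⟩
  have hroot : ∀ t : F, t ≠ 0 → Q.IsRoot t := by
    intro t ht
    have h1 := congrArg l (hev t ht)
    rw [map_sum] at h1
    rw [Polynomial.IsRoot, hQ, Polynomial.eval_sub, Polynomial.eval_finset_sum, sub_eq_zero]
    simp only [Polynomial.eval_mul, Polynomial.eval_C, Polynomial.eval_pow, Polynomial.eval_X]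
    rw [← h1, Finset.sum_mul]
    refine Finset.sum_congr rfl fun i hi => ?_
    rw [map_smul, smul_eq_mul]
    have h2 : t ^ (i + N).toNat = t ^ i * t ^ N := by
      rw [← zpow_natCast, Int.toNat_of_nonneg (hN i hi), zpow_add₀ ht, zpow_natCast]
    rw [h2]
    ring
  have hQ0 : Q = 0 := by
    apply Polynomial.eq_zero_of_infinite_isRoot
    have : Set.Infinite ({0}ᶜ : Set F) := (Set.finite_singleton (0 : F)).infinite_compl
    exact this.mono fun t ht => hroot t ht
  have hc : Q.coeff N = l (φ (f' 0 : M)) - l (φ f) := by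
    rw [hQ, Polynomial.coeff_sub, Polynomial.finset_sum_coeff]
    simp only [Polynomial.coeff_C_mul, Polynomial.coeff_X_pow, if_true, mul_one]
    congr 1
    by_cases h0 : (0 : ℤ) ∈ f'.support
    · rw [Finset.sum_eq_single_of_mem 0 h0]
      · simp
      · intro i hi hi0
        have := hN i hi
        rw [if_neg, mul_zero]
        omega
    · have h3 : (f' 0 : M) = 0 := by
        rw [DFinsupp.notMem_support_iff] at h0
        rw [h0]
        rfl
      rw [h3, map_zero, map_zero]
      refine Finset.sum_eq_zero fun i hi => ?_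
      have := hN i hi
      rw [if_neg, mul_zero]
      intro h4
      apply h0
      have : i = 0 := by omega
      rwa [this] at hi
  rw [hQ0, Polynomial.coeff_zero] at hc
  exact (sub_eq_zero.1 hc.symm).symm

section
variable {C : Type u} [Category.{v} C] [Preadditive C] [MonoidalCategory C] [SymmetricCategory C]
  {D : Type u'} [Category.{v'} D] [Preadditive D] [MonoidalCategory D] [SymmetricCategory D]
  [MonoidalPreadditive D] (F : Type) [Field F] [Linear F D] [MonoidalLinear F D]
  (Φ : C ⥤ D)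

theorem vdm [CharZero F] [Φ.Monoidal] (H : ∀ X Y : C, ℤ → Submodule F (Φ.obj X ⟶ Φ.obj Y)) :
    S_VDM F Φ H := by
  intro hG X Y f
  exact lin F (Φ.obj X ⟶ Φ.obj Y) (H X Y) (hG.internal X Y) f

end

end Pool.Agent.W554.NC
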